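import Mathlib
import Pool.Agent.Q34.RncC
import Pool.Agent.Q34.RncF

/-!
# MP_ec1cce_ag, Q1: initial degree of symbolic powers of `n + 3` points

For every odd `n`, every set `Z` of `n + 3` points of `ℙⁿ` in linearly general position (over any
field of characteristic zero) and every `k ≥ 1`,
`α(I_Z^(k)) = ⌈(n + 1)(n + 3) k / (n² + 2n - 1)⌉`.
-/

set_option autoImplicit false

namespace Pool.Agent.Results.MP_ec1cce_ag.InitialDegree

open MvPolynomial Finset

/-- Projective space of dimension `n` over `K`: the lines through the origin of `K ^ (n + 1)`. -/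
abbrev PSpace (K : Type*) [Field K] (n : ℕ) := Projectivization K (Fin (n + 1) → K)

/-- The homogeneous prime ideal `P_i` of the point `P` of `ℙⁿ`: the ideal of `K[x_0, …, x_n]`
generated by all forms (homogeneous polynomials of any degree) which vanish at `P`. -/
noncomputable def pointIdeal {K : Type*} [Field K] {n : ℕ} (P : PSpace K n) :
    Ideal (MvPolynomial (Fin (n + 1)) K) :=
  Ideal.span {F | (∃ d : ℕ, F.IsHomogeneous d) ∧ eval P.rep F = 0}

/-- The `k`-th symbolic power `I_Z^(k) = P_1 ^ k ∩ ⋯ ∩ P_s ^ k` of the ideal `I_Z` of the finite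
set of points `Z = {p_1, …, p_s}`. -/
noncomputable def symbolicPower {K : Type*} [Field K] {n : ℕ} (Z : Finset (PSpace K n)) (k : ℕ) :
    Ideal (MvPolynomial (Fin (n + 1)) K) :=
  ⨅ P ∈ Z, pointIdeal P ^ k

/-- The initial degree `α(J)` of an ideal `J`: the least degree of a nonzero homogeneous element
of `J`. -/
noncomputable def alpha {K : Type*} [Field K] {n : ℕ} (J : Ideal (MvPolynomial (Fin (n + 1)) K)) :
    ℕ :=
  sInf {d | ∃ F ∈ J, F ≠ 0 ∧ F.IsHomogeneous d}

/-- `Z` is in linearly general position: no `n + 1` of its points lie on a hyperplane (the zero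
set of a nonzero linear form). -/
def LinearlyGeneral {K : Type*} [Field K] {n : ℕ} (Z : Finset (PSpace K n)) : Prop :=
  ∀ S ⊆ Z, S.card = n + 1 → ∀ L : (Fin (n + 1) → K) →ₗ[K] K, L ≠ 0 → ∃ P ∈ S, L P.rep ≠ 0

section

variable {K : Type*} [Field K] {n : ℕ}

theorem eval_smul_hom {G : MvPolynomial (Fin (n + 1)) K} {e : ℕ} (hG : G.IsHomogeneous e)
    (c : K) (x : Fin (n + 1) → K) : eval (fun i => c * x i) G = c ^ e * eval x G := by
  rw [eval_eq', eval_eq', mul_sum]
  refine sum_congr rfl fun s hs => ?_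
  simp only [mul_pow]
  rw [prod_mul_distrib, prod_pow_eq_pow_sum, Q34.Rnc.sum_of_hom hG s hs]
  ring

theorem lagrange (a : Fin (n + 1) → K) (ha : Function.Injective a) (s : K) (b : ℕ) (hb : b ≤ n) :
    ∑ m, ((Q34.Rnc.Lc a m).eval (a m))⁻¹ * (Q34.Rnc.Lc a m).eval s * a m ^ b = s ^ b := by
  have h1 : (∑ m, Polynomial.C (((Q34.Rnc.Lc a m).eval (a m))⁻¹ * a m ^ b) * Q34.Rnc.Lc a m) -
      Polynomial.X ^ b = 0 := by
    apply Polynomial.eq_zero_of_natDegree_lt_card_of_eval_eq_zero _ ha
    · intro i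
      rw [Polynomial.eval_sub, Polynomial.eval_finsetSum, sum_eq_single i]
      · rw [Polynomial.eval_mul, Polynomial.eval_C, Polynomial.eval_pow, Polynomial.eval_X]
        have := Q34.Rnc.Lc_self a ha i
        field_simp
        ring
      · intro l _ hl
        rw [Polynomial.eval_mul, Q34.Rnc.Lc_other a i l hl, mul_zero]
      · intro h
        exact absurd (mem_univ _) h
    · rw [Fintype.card_fin]
      refine lt_of_le_of_lt (Polynomial.natDegree_sub_le _ _) (max_lt ?_ ?_)
      · refine lt_of_le_of_lt (Polynomial.natDegree_sum_le_of_forall_le _ _ (n := n) ?_)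
          (Nat.lt_succ_self n)
        intro i _
        exact (Polynomial.natDegree_C_mul_le _ _).trans (Q34.Rnc.Lc_natDegree a i).le
      · rw [Polynomial.natDegree_X_pow]
        omega
  have h2 := congrArg (Polynomial.eval s) h1
  rw [Polynomial.eval_sub, Polynomial.eval_finsetSum, Polynomial.eval_zero, sub_eq_zero,
    Polynomial.eval_pow, Polynomial.eval_X] at h2
  rw [← h2]
  refine sum_congr rfl fun m _ => ?_
  rw [Polynomial.eval_mul, Polynomial.eval_C]
  ring

/-- the key equivalence -/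
theorem key [CharZero K] {j : ℕ} (hj : 1 ≤ j) (hn : n + 1 = 2 * j) (Z : Finset (PSpace K n))
    (hcard : Z.card = n + 3) (hZ : LinearlyGeneral Z) (k d : ℕ) :
    (∃ F ∈ symbolicPower Z k, F ≠ 0 ∧ F.IsHomogeneous d) ↔
      j * (n + 3) * k + d ≤ 2 * j ^ 2 * d := by
  classical
  let e : Fin (n + 3) ≃ Z := (Z.equivFinOfCardEq hcard).symm
  let p : Fin (n + 3) → Fin (n + 1) → K := fun i => (e i : PSpace K n).rep
  have hp : ∀ σ : Fin (n + 1) → Fin (n + 3), Function.Injective σ →
      LinearIndependent K (p ∘ σ) := by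
    intro σ hσ
    apply linearIndependent_of_top_le_span_of_card_eq_finrank _ (by simp)
    by_contra hcon
    obtain ⟨f, hf, hle⟩ := Submodule.exists_le_ker_of_lt_top _
      (lt_of_le_of_ne le_top (fun h => hcon h.ge))
    obtain ⟨P, hP, hne⟩ := hZ (univ.image fun i => (e (σ i) : PSpace K n)) (by
      intro P hP
      obtain ⟨i, -, rfl⟩ := mem_image.mp hP
      exact (e (σ i)).2) (by
      have hinj : Function.Injective fun i => (e (σ i) : PSpace K n) :=
        Subtype.val_injective.comp (e.injective.comp hσ)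
      rw [card_image_of_injective _ hinj, card_univ, Fintype.card_fin]) f hf
    obtain ⟨i, -, rfl⟩ := mem_image.mp hP
    apply hne
    exact hle (Submodule.subset_span ⟨i, rfl⟩)
  obtain ⟨t, c, T, ht, hc, hT⟩ := Q34.Rnc.normal_form n p hp
  constructor
  · rintro ⟨F, hFmem, hF0, hF⟩
    -- curve coordinates
    obtain ⟨a, ha, hta⟩ : ∃ a : Fin (n + 1) → K, Function.Injective a ∧ ∀ i m, t i ≠ a m := by
      have hinf : ((univ.image t : Finset K) : Set K)ᶜ.Infinite :=
        Set.Finite.infinite_compl (univ.image t : Finset K).finite_toSet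
      refine ⟨fun i => (hinf.natEmbedding _ (i : ℕ) : K), ?_, ?_⟩
      · intro x y hxy
        exact Fin.ext ((hinf.natEmbedding _).injective (Subtype.ext hxy))
      · intro i m h
        have := (hinf.natEmbedding _ (m : ℕ)).2
        apply this
        have h' : t i = ((hinf.natEmbedding _ (m : ℕ) : _) : K) := h
        rw [← h']
        simp
    let A : Fin (n + 1) → Fin (n + 1) → K := fun i m =>
      ((Q34.Rnc.Lc a m).eval (a m))⁻¹ * T.symm (Q34.Rnc.nu n (a m)) i
    have hA : ∀ y : Fin (n + 1) → K, (fun i => ∑ m, A i m * y m) =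
        T.symm (∑ m, (((Q34.Rnc.Lc a m).eval (a m))⁻¹ * y m) • Q34.Rnc.nu n (a m)) := by
      intro y
      rw [map_sum]
      funext i
      rw [Finset.sum_apply]
      refine sum_congr rfl fun m _ => ?_
      rw [map_smul, Pi.smul_apply, smul_eq_mul]
      ring
    have hAt : ∀ i, (fun l => ∑ m, A l m * (Q34.Rnc.Lc a m).eval (t i)) =
        fun l => (c i)⁻¹ * p i l := by
      intro i
      rw [hA]
      have h1 : ∑ m, (((Q34.Rnc.Lc a m).eval (a m))⁻¹ * (Q34.Rnc.Lc a m).eval (t i)) •
          Q34.Rnc.nu n (a m) = Q34.Rnc.nu n (t i) := by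
        funext b
        rw [Finset.sum_apply]
        simp only [Pi.smul_apply, smul_eq_mul, Q34.Rnc.nu]
        exact lagrange a ha (t i) b (Nat.lt_succ_iff.mp b.2)
      rw [h1]
      have h2 : Q34.Rnc.nu n (t i) = (c i)⁻¹ • T (p i) := by
        rw [hT, smul_smul, inv_mul_cancel₀ (hc i), one_smul]
      rw [h2, map_smul, LinearEquiv.symm_apply_apply]
      rfl
    refine Q34.Rnc.lower_bound hn a ha (Q34.Rnc.lsub A F) (Q34.Rnc.lsub_hom A F hF) ?_ t ht hta k
      ?_
    · intro h0
      apply hF0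
      apply MvPolynomial.funext
      intro x
      rw [map_zero]
      have h1 := (Q34.Rnc.nu_indep n a ha).span_eq_top_of_card_eq_finrank (by simp)
      have h2 : T x ∈ Submodule.span K (Set.range fun i => Q34.Rnc.nu n (a i)) := by
        rw [h1]; exact Submodule.mem_top
      rw [Submodule.mem_span_range_iff_exists_fun] at h2
      obtain ⟨z, hz⟩ := h2
      have h3 := Q34.Rnc.eval_lsub A F (fun m => (Q34.Rnc.Lc a m).eval (a m) * z m)
      rw [h0, map_zero, hA] at h3
      rw [h3]
      congr 2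
      have h4 : ∑ m, (((Q34.Rnc.Lc a m).eval (a m))⁻¹ * ((Q34.Rnc.Lc a m).eval (a m) * z m)) •
          Q34.Rnc.nu n (a m) = T x := by
        rw [← hz]
        refine sum_congr rfl fun m _ => ?_
        rw [inv_mul_cancel_left₀ (Q34.Rnc.Lc_self a ha m)]
      rw [h4, LinearEquiv.symm_apply_apply]
    · intro i
      have h1 : F ∈ pointIdeal (e i : PSpace K n) ^ k := by
        have h2 := hFmem
        unfold symbolicPower at h2
        rw [Submodule.mem_iInf] at h2
        have h3 := h2 (e i : PSpace K n)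
        rw [Submodule.mem_iInf] at h3
        exact h3 (e i).2
      have h2 : (pointIdeal (e i : PSpace K n)).map
          (aeval (fun i => ∑ m, C (A i m) * X m) : MvPolynomial (Fin (n + 1)) K →ₐ[K]
            MvPolynomial (Fin (n + 1)) K) ≤
          RingHom.ker (eval fun m => (Q34.Rnc.Lc a m).eval (t i)) := by
        rw [Ideal.map_le_iff_le_comap, pointIdeal, Ideal.span_le]
        rintro G ⟨⟨e', hG⟩, hGe⟩
        rw [SetLike.mem_coe, Ideal.mem_comap, RingHom.mem_ker]
        have h3 := Q34.Rnc.eval_lsub A G (fun m => (Q34.Rnc.Lc a m).eval (t i))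
        rw [hAt, eval_smul_hom hG] at h3
        refine h3.trans ?_
        rw [show eval (p i) G = 0 from hGe, mul_zero]
      have h3 := Ideal.mem_map_of_mem (aeval (fun i => ∑ m, C (A i m) * X m) :
        MvPolynomial (Fin (n + 1)) K →ₐ[K] MvPolynomial (Fin (n + 1)) K) h1
      rw [Ideal.map_pow] at h3
      exact Ideal.pow_right_mono h2 k h3
  · intro h
    obtain ⟨F, hF0, hF, hFJ⟩ := Q34.Rnc.exists_form hj hn T t c p hT k d h
    refine ⟨F, ?_, hF0, hF⟩
    unfold symbolicPower
    rw [Submodule.mem_iInf]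
    intro P
    rw [Submodule.mem_iInf]
    intro hP
    have h1 := hFJ (e.symm ⟨P, hP⟩) (pointIdeal P) (by
      intro L hL hL0
      refine Ideal.subset_span ⟨⟨1, hL⟩, ?_⟩
      have : p (e.symm ⟨P, hP⟩) = P.rep := by
        show (e (e.symm ⟨P, hP⟩) : PSpace K n).rep = _
        rw [Equiv.apply_symm_apply]
      rwa [this] at hL0)
    exact h1

end

/-- **Initial degree of symbolic powers of `n + 3` points.** Let `K` be a field of characteristic
zero, `n` odd, `Z` a set of `n + 3` points of `ℙⁿ` in linearly general position and `k ≥ 1`. Then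
`α(I_Z^(k)) = ⌈(n + 1)(n + 3) k / (n² + 2n - 1)⌉`. -/
theorem result (K : Type*) [Field K] [CharZero K] (n : ℕ) (hn : Odd n) (Z : Finset (PSpace K n))
    (hcard : Z.card = n + 3) (hZ : LinearlyGeneral Z) (k : ℕ) (hk : 1 ≤ k) :
    (alpha (symbolicPower Z k) : ℤ) =
      ⌈(((n : ℚ) + 1) * ((n : ℚ) + 3) * k) / ((n : ℚ) ^ 2 + 2 * n - 1)⌉ := by
  obtain ⟨r, hr⟩ := hn
  have hn' : n + 1 = 2 * (r + 1) := by omega
  have hkey := key (Nat.succ_pos r) hn' Z hcard hZ k
  have hset : {d | ∃ F ∈ symbolicPower Z k, F ≠ 0 ∧ F.IsHomogeneous d} =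
      {d | (r + 1) * (n + 3) * k + d ≤ 2 * (r + 1) ^ 2 * d} := by
    ext d
    exact hkey d
  have hnq : (n : ℚ) = 2 * r + 1 := by
    rw [hr]; push_cast; ring
  have hden : (0 : ℚ) < (n : ℚ) ^ 2 + 2 * n - 1 := by
    rw [hnq]
    nlinarith [(Nat.cast_nonneg r : (0 : ℚ) ≤ r)]
  have hiff : ∀ d : ℕ, ((r + 1) * (n + 3) * k + d ≤ 2 * (r + 1) ^ 2 * d) ↔
      (((n : ℚ) + 1) * ((n : ℚ) + 3) * k) / ((n : ℚ) ^ 2 + 2 * n - 1) ≤ (d : ℚ) := by
    intro d
    rw [div_le_iff₀ hden, ← Nat.cast_le (α := ℚ)]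
    push_cast
    rw [hnq]
    constructor
    · intro h; nlinarith
    · intro h; nlinarith
  set q : ℚ := (((n : ℚ) + 1) * ((n : ℚ) + 3) * k) / ((n : ℚ) ^ 2 + 2 * n - 1) with hq
  have hq0 : 0 ≤ q := by
    rw [hq]
    apply div_nonneg _ hden.le
    positivity
  have h1 : alpha (symbolicPower Z k) = ⌈q⌉₊ := by
    unfold alpha
    rw [hset]
    apply le_antisymm
    · apply Nat.sInf_le
      rw [Set.mem_ofPred_eq, hiff]
      exact Nat.le_ceil q
    · rw [Nat.ceil_le, ← hiff]
      have hne : {d | (r + 1) * (n + 3) * k + d ≤ 2 * (r + 1) ^ 2 * d}.Nonempty :=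
        ⟨⌈q⌉₊, by rw [Set.mem_ofPred_eq, hiff]; exact Nat.le_ceil q⟩
      exact Nat.sInf_mem hne
  rw [h1]
  exact Int.natCast_ceil_eq_ceil hq0

end Pool.Agent.Results.MP_ec1cce_ag.InitialDegree
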